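import Mathlib

/-! # Al-Salam–Carlitz polynomials, their moments, and the `q`-derivative -/

namespace Pool.Agent.K3h30.ASC

open Polynomial

variable {K : Type*} [Field K]

/-- `(q;q)_m`. -/
def qp (q : K) (m : ℕ) : K := ∏ i ∈ Finset.range m, (1 - q ^ (i + 1))

/-- The Gaussian binomial coefficient (for `k ≤ m`). -/
def gb (q : K) (m k : ℕ) : K := qp q m / (qp q k * qp q (m - k))

/-- The Rogers–Szegő polynomial, the `r`-th moment. -/
def gg (q a : K) (r : ℕ) : K := ∑ j ∈ Finset.range (r + 1), gb q r j * a ^ j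

theorem qp_succ (q : K) (m : ℕ) : qp q (m + 1) = (1 - q ^ (m + 1)) * qp q m := by
  unfold qp
  rw [Finset.prod_range_succ, mul_comm]

theorem qp_zero (q : K) : qp q 0 = 1 := by simp [qp]

theorem qp_ne {q : K} (hq : ∀ i : ℕ, 0 < i → q ^ i ≠ 1) (m : ℕ) : qp q m ≠ 0 := by
  unfold qp
  rw [Finset.prod_ne_zero_iff]
  intro i _ h
  exact hq (i + 1) (Nat.succ_pos i) (by linear_combination -h)

theorem gb_zero {q : K} (hq : ∀ i : ℕ, 0 < i → q ^ i ≠ 1) (m : ℕ) : gb q m 0 = 1 := by
  unfold gb
  rw [qp_zero, one_mul, Nat.sub_zero, div_self (qp_ne hq m)]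

theorem gb_self {q : K} (hq : ∀ i : ℕ, 0 < i → q ^ i ≠ 1) (m : ℕ) : gb q m m = 1 := by
  unfold gb
  rw [Nat.sub_self, qp_zero, mul_one, div_self (qp_ne hq m)]

theorem gb_rec {q : K} (hq : ∀ i : ℕ, 0 < i → q ^ i ≠ 1) (n i : ℕ) (hi : i ≤ n) :
    gb q (n + 2) (i + 1) = gb q (n + 1) (i + 1) + gb q (n + 1) i
      - (1 - q ^ (n + 1)) * gb q n i := by
  obtain ⟨l, rfl⟩ := Nat.exists_eq_add_of_le hi
  unfold gb
  rw [show i + l + 2 - (i + 1) = l + 1 by omega, show i + l + 1 - (i + 1) = l by omega,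
    show i + l + 1 - i = l + 1 by omega, show i + l - i = l by omega]
  have h1 := qp_ne hq i
  have h2 := qp_ne hq l
  have h3 : (1 - q ^ (i + 1)) ≠ 0 := fun h => hq (i + 1) (Nat.succ_pos i) (by linear_combination -h)
  have h4 : (1 - q ^ (l + 1)) ≠ 0 := fun h => hq (l + 1) (Nat.succ_pos l) (by linear_combination -h)
  rw [show i + l + 2 = (i + l + 1) + 1 by ring, qp_succ q (i + l + 1), qp_succ q i, qp_succ q l,
    qp_succ q (i + l)]
  field_simp
  ring

theorem gg_zero {q : K} (hq : ∀ i : ℕ, 0 < i → q ^ i ≠ 1) (a : K) : gg q a 0 = 1 := by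
  unfold gg
  rw [Finset.sum_range_one, gb_zero hq, pow_zero, mul_one]

theorem gg_one {q : K} (hq : ∀ i : ℕ, 0 < i → q ^ i ≠ 1) (a : K) : gg q a 1 = 1 + a := by
  unfold gg
  rw [Finset.sum_range_succ, Finset.sum_range_one, gb_zero hq, gb_self hq]
  ring

theorem gg_rec {q : K} (hq : ∀ i : ℕ, 0 < i → q ^ i ≠ 1) (a : K) (n : ℕ) :
    gg q a (n + 2) = (1 + a) * gg q a (n + 1) - a * (1 - q ^ (n + 1)) * gg q a n := by
  have e1 : gg q a (n + 2) = (∑ i ∈ Finset.range (n + 1), gb q (n + 2) (i + 1) * a ^ (i + 1)) +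
      a ^ (n + 2) + 1 := by
    unfold gg
    rw [Finset.sum_range_succ', Finset.sum_range_succ, gb_zero hq, gb_self hq]
    ring
  have e2 : gg q a (n + 1) = (∑ i ∈ Finset.range (n + 1), gb q (n + 1) (i + 1) * a ^ (i + 1)) +
      1 := by
    unfold gg
    rw [Finset.sum_range_succ', gb_zero hq]
    ring
  have e3 : a * gg q a (n + 1) = (∑ i ∈ Finset.range (n + 1), gb q (n + 1) i * a ^ (i + 1)) +
      a ^ (n + 2) := by
    unfold gg
    rw [Finset.sum_range_succ, gb_self hq, mul_add, Finset.mul_sum]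
    congr 1
    · apply Finset.sum_congr rfl
      intro i _
      ring
    · ring
  have e4 : a * (1 - q ^ (n + 1)) * gg q a n =
      ∑ i ∈ Finset.range (n + 1), (1 - q ^ (n + 1)) * gb q n i * a ^ (i + 1) := by
    unfold gg
    rw [Finset.mul_sum]
    apply Finset.sum_congr rfl
    intro i _
    ring
  have e5 : (1 + a) * gg q a (n + 1) = gg q a (n + 1) + a * gg q a (n + 1) := by ring
  rw [e5, e3, e4, e2, e1]
  have e6 : ∑ i ∈ Finset.range (n + 1), gb q (n + 2) (i + 1) * a ^ (i + 1) =
      (∑ i ∈ Finset.range (n + 1), gb q (n + 1) (i + 1) * a ^ (i + 1)) +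
      (∑ i ∈ Finset.range (n + 1), gb q (n + 1) i * a ^ (i + 1)) -
      ∑ i ∈ Finset.range (n + 1), (1 - q ^ (n + 1)) * gb q n i * a ^ (i + 1) := by
    rw [← Finset.sum_add_distrib, ← Finset.sum_sub_distrib]
    apply Finset.sum_congr rfl
    intro i hi
    rw [gb_rec hq n i (by rw [Finset.mem_range] at hi; omega)]
    ring
  rw [e6]
  ring

/-- The moment functional. -/
noncomputable def LL (q a : K) : K[X] →ₗ[K] K :=
  Polynomial.lsum (fun n => (gg q a n) • (LinearMap.id : K →ₗ[K] K))

/-- The `q`-derivative. -/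
noncomputable def DD (q : K) : K[X] →ₗ[K] K[X] :=
  Polynomial.lsum (fun n => (1 - q ^ n) • (Polynomial.monomial (n - 1) : K →ₗ[K] K[X]))

theorem LL_mon (q a : K) (n : ℕ) (c : K) : LL q a (monomial n c) = c * gg q a n := by
  unfold LL
  rw [Polynomial.lsum_apply, Polynomial.sum_monomial_index]
  · simp [mul_comm]
  · simp

theorem DD_mon (q : K) (n : ℕ) (c : K) :
    DD q (monomial n c) = (1 - q ^ n) • monomial (n - 1) c := by
  unfold DD
  rw [Polynomial.lsum_apply, Polynomial.sum_monomial_index]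
  · simp
  · simp

theorem LL_X {q : K} (hq : ∀ i : ℕ, 0 < i → q ^ i ≠ 1) (a : K) (f : K[X]) :
    LL q a (X * f) = (1 + a) * LL q a f - a * LL q a (DD q f) := by
  induction f using Polynomial.induction_on' with
  | add f g hf hg =>
    rw [mul_add, map_add, hf, hg, map_add, map_add, map_add]
    ring
  | monomial n c =>
    rw [X_mul_monomial, DD_mon, map_smul, LL_mon, LL_mon, LL_mon, smul_eq_mul]
    rcases n with _ | n
    · rw [gg_one hq]
      simp [gg_zero hq]
      ring
    · rw [gg_rec hq, Nat.add_sub_cancel]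
      ring

theorem DD_X (q : K) (f : K[X]) :
    DD q (X * f) = C (1 - q) * f + C q * X * DD q f := by
  induction f using Polynomial.induction_on' with
  | add f g hf hg =>
    rw [mul_add, map_add, hf, hg, map_add]
    ring
  | monomial n c =>
    rw [X_mul_monomial, DD_mon, DD_mon, Nat.add_sub_cancel]
    rcases n with _ | n
    · simp only [zero_add, pow_one, pow_zero, sub_self, zero_smul, mul_zero, add_zero]
      rw [Polynomial.smul_eq_C_mul]
    · rw [Nat.add_sub_cancel, mul_assoc, Polynomial.smul_eq_C_mul, Polynomial.smul_eq_C_mul]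
      have : X * (C (1 - q ^ (n + 1)) * (monomial n) c) =
          C (1 - q ^ (n + 1)) * monomial (n + 1) c := by
        rw [← X_mul_monomial]; ring
      rw [this, ← mul_assoc, ← add_mul, ← C_mul, ← C_add]
      congr 2
      ring

/-- The Al-Salam–Carlitz polynomials. -/
noncomputable def UU (q a : K) : ℕ → K[X]
  | 0 => 1
  | 1 => X - C (1 + a)
  | (n + 2) => (X - C ((1 + a) * q ^ (n + 1))) * UU q a (n + 1) +
      C (a * q ^ n * (1 - q ^ (n + 1))) * UU q a n

theorem UU_rec (q a : K) (n : ℕ) : X * UU q a n = UU q a (n + 1) + C ((1 + a) * q ^ n) * UU q a n -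
    C (a * q ^ (n - 1) * (1 - q ^ n)) * UU q a (n - 1) := by
  rcases n with _ | n
  · simp [UU]
  · rw [UU, Nat.add_sub_cancel]
    ring

theorem DD_one (q : K) : DD q 1 = 0 := by
  have : (1 : K[X]) = monomial 0 1 := rfl
  rw [this, DD_mon]
  simp

theorem DD_C_mul (q c : K) (f : K[X]) : DD q (C c * f) = C c * DD q f := by
  rw [← Polynomial.smul_eq_C_mul, ← Polynomial.smul_eq_C_mul, map_smul]

theorem LL_C_mul (q a c : K) (f : K[X]) : LL q a (C c * f) = c * LL q a f := by
  rw [← Polynomial.smul_eq_C_mul, map_smul, smul_eq_mul]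

theorem DD_UU (q a : K) : ∀ n, DD q (UU q a n) = C (1 - q ^ n) * UU q a (n - 1)
  | 0 => by simp [UU, DD_one]
  | 1 => by
    have h1 : UU q a 1 = X * 1 - C (1 + a) * 1 := by rw [UU]; ring
    have h0 : UU q a (1 - 1) = 1 := rfl
    rw [h1, h0, map_sub, DD_X, DD_C_mul, DD_one]
    simp
  | (n + 2) => by
    have e1 : UU q a (n + 2) = X * UU q a (n + 1) - C ((1 + a) * q ^ (n + 1)) * UU q a (n + 1) +
        C (a * q ^ n * (1 - q ^ (n + 1))) * UU q a n := by
      rw [UU]; ring
    rw [e1, map_add, map_sub, DD_X, DD_C_mul, DD_C_mul, DD_UU q a (n + 1), DD_UU q a n]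
    have e2 := UU_rec q a n
    simp only [Nat.add_sub_cancel]
    have e3 : n + 2 - 1 = n + 1 := by omega
    rw [e3]
    rcases n with _ | n
    · simp [UU] at e2 ⊢
      simp only [C_mul, C_sub, C_add, C_1, C_pow] at *
      ring
    · simp only [Nat.add_sub_cancel] at e2 ⊢
      simp only [C_mul, C_sub, C_add, C_pow, map_one] at e2 ⊢
      linear_combination (C q * (1 - C q ^ (n + 2))) * e2

theorem LL_UU {q : K} (hq : ∀ i : ℕ, 0 < i → q ^ i ≠ 1) (a : K) :
    ∀ n, LL q a (UU q a (n + 1)) = 0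
  | 0 => by
    have h1 : UU q a 1 = X * 1 - C (1 + a) * 1 := by rw [UU]; ring
    rw [zero_add, h1, map_sub, LL_X hq, LL_C_mul, DD_one]
    simp
  | 1 => by
    have e0 : UU q a 2 = (X - C ((1 + a) * q ^ 1)) * UU q a 1 +
        C (a * q ^ 0 * (1 - q ^ 1)) * UU q a 0 := rfl
    have e1 : UU q a 2 = X * UU q a 1 - C ((1 + a) * q ^ 1) * UU q a 1 +
        C (a * q ^ 0 * (1 - q ^ 1)) * UU q a 0 := by
      rw [e0]; ring
    have h0 : UU q a (1 - 1) = UU q a 0 := rfl
    rw [e1, map_add, map_sub, LL_X hq, DD_UU, LL_C_mul, LL_C_mul, LL_C_mul, h0, LL_UU hq a 0]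
    ring
  | (n + 2) => by
    have e1 : UU q a (n + 3) = X * UU q a (n + 2) - C ((1 + a) * q ^ (n + 2)) * UU q a (n + 2) +
        C (a * q ^ (n + 1) * (1 - q ^ (n + 2))) * UU q a (n + 1) := by
      rw [UU]; ring
    have h0 : UU q a (n + 2 - 1) = UU q a (n + 1) := rfl
    rw [e1, map_add, map_sub, LL_X hq, DD_UU, LL_C_mul, LL_C_mul, LL_C_mul, h0,
      LL_UU hq a (n + 1), LL_UU hq a n]
    ring

/-- The norms. -/
def hh (q a : K) : ℕ → K
  | 0 => 1
  | (n + 1) => -(a * q ^ n * (1 - q ^ (n + 1))) * hh q a n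

theorem MM_rec (q a : K) (m n : ℕ) :
    LL q a (UU q a (m + 1) * UU q a n) = LL q a (UU q a m * UU q a (n + 1)) +
      (1 + a) * (q ^ n - q ^ m) * LL q a (UU q a m * UU q a n) -
      a * q ^ (n - 1) * (1 - q ^ n) * LL q a (UU q a m * UU q a (n - 1)) +
      a * q ^ (m - 1) * (1 - q ^ m) * LL q a (UU q a (m - 1) * UU q a n) := by
  have e1 := UU_rec q a m
  have e2 := UU_rec q a n
  have e3 : UU q a (m + 1) * UU q a n = UU q a m * UU q a (n + 1) +
      C ((1 + a) * (q ^ n - q ^ m)) * (UU q a m * UU q a n) -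
      C (a * q ^ (n - 1) * (1 - q ^ n)) * (UU q a m * UU q a (n - 1)) +
      C (a * q ^ (m - 1) * (1 - q ^ m)) * (UU q a (m - 1) * UU q a n) := by
    simp only [C_mul, C_sub, C_add, C_pow, map_one] at e1 e2 ⊢
    linear_combination (-UU q a n) * e1 + (UU q a m) * e2
  rw [e3, map_add, map_sub, map_add, LL_C_mul, LL_C_mul, LL_C_mul]

theorem MM_zero {q : K} (hq : ∀ i : ℕ, 0 < i → q ^ i ≠ 1) (a : K) (n : ℕ) :
    LL q a (UU q a 0 * UU q a n) = if 0 = n then 1 else 0 := by
  rw [UU, one_mul]
  rcases n with _ | n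
  · have : UU q a 0 = monomial 0 1 := rfl
    rw [this, LL_mon, gg_zero hq]
    simp
  · rw [LL_UU hq]
    simp

theorem MM {q : K} (hq : ∀ i : ℕ, 0 < i → q ^ i ≠ 1) (a : K) : ∀ m n,
    LL q a (UU q a m * UU q a n) = if m = n then hh q a m else 0 := by
  intro m
  induction m using Nat.strong_induction_on with
  | _ m ih =>
    intro n
    rcases m with _ | m
    · rw [MM_zero hq]
      rfl
    · rw [MM_rec, ih m (by omega), ih m (by omega), ih m (by omega)]
      rcases m with _ | m
      · rw [pow_zero, sub_self, mul_zero, zero_mul, add_zero]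
        rcases n with _ | n
        · simp
        · rcases n with _ | n
          · simp [hh]
          · simp
      · rw [Nat.add_sub_cancel, ih m (by omega)]
        by_cases h1 : n = m + 2
        · subst h1
          have e1 : ¬ (m + 1 = m + 2 + 1) := by omega
          have e2 : ¬ (m + 1 = m + 2) := by omega
          have e3 : m + 2 - 1 = m + 1 := by omega
          have e4 : ¬ (m = m + 2) := by omega
          simp only [e1, e2, e3, e4, if_false, if_true, hh]
          ring
        · by_cases h2 : n = m + 1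
          · subst h2
            have e1 : ¬ (m + 1 = m + 1 + 1) := by omega
            have e3 : ¬ (m + 1 = m + 1 - 1) := by omega
            have e4 : ¬ (m = m + 1) := by omega
            have e5 : ¬ (m + 1 + 1 = m + 1) := by omega
            simp only [e1, e3, e4, e5, if_false, if_true]
            ring
          · by_cases h3 : n = m
            · subst h3
              have e2 : ¬ (n + 1 = n) := by omega
              have e3 : ¬ (n + 1 = n - 1) := by omega
              have e4 : ¬ (n + 1 + 1 = n) := by omega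
              simp only [e2, e3, e4, if_false, if_true, hh]
              ring
            · have e1 : ¬ (m + 1 = n + 1) := by omega
              have e2 : ¬ (m + 1 = n) := by omega
              have e4 : ¬ (m = n) := by omega
              have e5 : ¬ (m + 1 + 1 = n) := by omega
              have e3 : ¬ (m + 1 = n - 1) := by omega
              simp only [e1, e2, e3, e4, e5, if_false]
              ring

/-- The first skew form. -/
noncomputable def B0 (q a : K) (f g : K[X]) : K := LL q a (f * DD q g - DD q f * g)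

/-- The second skew form. -/
noncomputable def B1 (q a : K) (f g : K[X]) : K := LL q a (X * (f * DD q g - DD q f * g))

theorem B0_mon (q a : K) (i j : ℕ) :
    B0 q a (X ^ i) (X ^ j) = (q ^ i - q ^ j) * gg q a (i + j - 1) := by
  unfold B0
  rw [X_pow_eq_monomial, X_pow_eq_monomial, DD_mon, DD_mon, mul_smul_comm, smul_mul_assoc,
    monomial_mul_monomial, monomial_mul_monomial, map_sub, map_smul, map_smul, LL_mon, LL_mon,
    smul_eq_mul, smul_eq_mul]
  rcases i with _ | i
  · rcases j with _ | j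
    · simp
    · simp
  · rcases j with _ | j
    · simp
      ring
    · rw [show i + 1 + (j + 1 - 1) = i + j + 1 by omega, show i + 1 - 1 + (j + 1) = i + j + 1 by omega,
        show i + 1 + (j + 1) - 1 = i + j + 1 by omega]
      ring

theorem B1_mon (q a : K) (i j : ℕ) :
    B1 q a (X ^ i) (X ^ j) = (q ^ i - q ^ j) * gg q a (i + j) := by
  unfold B1
  rw [X_pow_eq_monomial, X_pow_eq_monomial, DD_mon, DD_mon, mul_smul_comm, smul_mul_assoc,
    monomial_mul_monomial, monomial_mul_monomial, mul_sub, mul_smul_comm, mul_smul_comm,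
    X_mul_monomial, X_mul_monomial, map_sub, map_smul, map_smul, LL_mon, LL_mon,
    smul_eq_mul, smul_eq_mul]
  rcases i with _ | i
  · rcases j with _ | j
    · simp
    · simp
  · rcases j with _ | j
    · simp
      ring
    · rw [show i + 1 + (j + 1 - 1) + 1 = i + 1 + (j + 1) by omega,
        show i + 1 - 1 + (j + 1) + 1 = i + 1 + (j + 1) by omega]
      ring

theorem B0_UU {q : K} (hq : ∀ i : ℕ, 0 < i → q ^ i ≠ 1) (a : K) (m n : ℕ) :
    B0 q a (UU q a m) (UU q a n) =
      (1 - q ^ n) * (if m = n - 1 then hh q a m else 0) -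
      (1 - q ^ m) * (if m - 1 = n then hh q a (m - 1) else 0) := by
  unfold B0
  rw [DD_UU, DD_UU]
  have : UU q a m * (C (1 - q ^ n) * UU q a (n - 1)) - C (1 - q ^ m) * UU q a (m - 1) * UU q a n =
      C (1 - q ^ n) * (UU q a m * UU q a (n - 1)) - C (1 - q ^ m) * (UU q a (m - 1) * UU q a n) := by
    ring
  rw [this, map_sub, LL_C_mul, LL_C_mul, MM hq, MM hq]

theorem NN {q : K} (hq : ∀ i : ℕ, 0 < i → q ^ i ≠ 1) (a : K) (m n : ℕ) :
    LL q a (X * (UU q a m * UU q a n)) =
      (if m + 1 = n then hh q a n else 0) + (1 + a) * q ^ m * (if m = n then hh q a m else 0) -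
      a * q ^ (m - 1) * (1 - q ^ m) * (if m - 1 = n then hh q a n else 0) := by
  have e1 := UU_rec q a m
  have e3 : X * (UU q a m * UU q a n) = UU q a (m + 1) * UU q a n +
      C ((1 + a) * q ^ m) * (UU q a m * UU q a n) -
      C (a * q ^ (m - 1) * (1 - q ^ m)) * (UU q a (m - 1) * UU q a n) := by
    linear_combination (UU q a n) * e1
  rw [e3, map_sub, map_add, LL_C_mul, LL_C_mul, MM hq, MM hq, MM hq]
  congr 1
  · congr 1
    by_cases h : m + 1 = n
    · rw [if_pos h, if_pos h, h]
    · rw [if_neg h, if_neg h]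
  · by_cases h : m - 1 = n
    · rw [if_pos h, if_pos h, h]
    · rw [if_neg h, if_neg h]

theorem B1_UU {q : K} (a : K) (m n : ℕ) :
    B1 q a (UU q a m) (UU q a n) =
      (1 - q ^ n) * LL q a (X * (UU q a m * UU q a (n - 1))) -
      (1 - q ^ m) * LL q a (X * (UU q a (m - 1) * UU q a n)) := by
  unfold B1
  rw [DD_UU, DD_UU]
  have : X * (UU q a m * (C (1 - q ^ n) * UU q a (n - 1)) -
      C (1 - q ^ m) * UU q a (m - 1) * UU q a n) =
      C (1 - q ^ n) * (X * (UU q a m * UU q a (n - 1))) -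
      C (1 - q ^ m) * (X * (UU q a (m - 1) * UU q a n)) := by
    ring
  rw [this, map_sub, LL_C_mul, LL_C_mul]

end Pool.Agent.K3h30.ASC
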