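import Pool.Agent.K3h30.ASC.PfSum
import Pool.Agent.K3h30.ASC.Poly

/-! # Pfaffians of banded skew matrices and the two evaluations -/

namespace Pool.Agent.K3h30.ASC

open Pool.Agent.Helper929 Equiv Finset Polynomial

section band

variable {R : Type*} [CommRing R]

/-- The Pfaffian of the `2n × 2n` window starting at `s`. -/
def W (β : ℕ → ℕ → R) (n s : ℕ) : R :=
  pf (2 * n) (Matrix.of fun i j => β (s + (i : ℕ)) (s + (j : ℕ)))

theorem W_zero (β : ℕ → ℕ → R) (s : ℕ) : W β 0 s = 1 := rfl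

theorem W_tri (β : ℕ → ℕ → R) (hβ : ∀ i j, i + 1 < j → β i j = 0) (n s : ℕ) :
    W β (n + 1) s = β s (s + 1) * W β n (s + 2) := by
  have h : W β (n + 1) s = ∑ j : Fin (2 * n + 1), (-1) ^ (j : ℕ) * β (s + 0) (s + (j.succ : ℕ)) *
      pf (2 * n) ((Matrix.of fun (i j : Fin (2 * n + 2)) => β (s + (i : ℕ)) (s + (j : ℕ))).submatrix
        (fun k => (j.succAbove k).succ) (fun k => (j.succAbove k).succ)) := rfl
  rw [h, Finset.sum_eq_single 0]
  · have e : (Matrix.of fun (i j : Fin (2 * n + 2)) => β (s + (i : ℕ)) (s + (j : ℕ))).submatrix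
        (fun k => ((0 : Fin (2 * n + 1)).succAbove k).succ)
        (fun k => ((0 : Fin (2 * n + 1)).succAbove k).succ) =
        Matrix.of fun (i j : Fin (2 * n)) => β (s + 2 + (i : ℕ)) (s + 2 + (j : ℕ)) := by
      ext i j
      simp only [Matrix.submatrix_apply, Matrix.of_apply, Fin.succAbove_zero, Fin.val_succ]
      congr 1 <;> omega
    rw [e]
    simp [W]
  · intro j _ hj
    have : β (s + 0) (s + (j.succ : ℕ)) = 0 := by
      apply hβ
      have : (j : ℕ) ≠ 0 := fun h => hj (Fin.ext h)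
      simp only [Fin.val_succ]
      omega
    rw [this]
    ring
  · intro h
    exact absurd (Finset.mem_univ _) h

theorem W_one (β : ℕ → ℕ → R) (s : ℕ) : W β 1 s = β s (s + 1) := by
  have h : W β 1 s = ∑ j : Fin 1, (-1) ^ (j : ℕ) * β (s + 0) (s + (j.succ : ℕ)) *
      pf 0 ((Matrix.of fun (i j : Fin 2) => β (s + (i : ℕ)) (s + (j : ℕ))).submatrix
        (fun k => (j.succAbove k).succ) (fun k => (j.succAbove k).succ)) := rfl
  rw [h]
  simp [pf]

theorem W_penta (β : ℕ → ℕ → R) (hβ : ∀ i j, i + 2 < j → β i j = 0) (n s : ℕ) :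
    W β (n + 2) s = β s (s + 1) * W β (n + 1) (s + 2) -
      β s (s + 2) * β (s + 1) (s + 3) * W β n (s + 4) := by
  have h : W β (n + 2) s = ∑ j : Fin (2 * n + 3), (-1) ^ (j : ℕ) * β (s + 0) (s + (j.succ : ℕ)) *
      pf (2 * n + 2) ((Matrix.of fun (i j : Fin (2 * n + 4)) =>
        β (s + (i : ℕ)) (s + (j : ℕ))).submatrix
        (fun k => (j.succAbove k).succ) (fun k => (j.succAbove k).succ)) := rfl
  rw [h, Fin.sum_univ_succ, Fin.sum_univ_succ]
  have hz : ∑ i : Fin (2 * n + 1), (-1) ^ ((i.succ.succ : Fin (2 * n + 3)) : ℕ) *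
      β (s + 0) (s + ((i.succ.succ : Fin (2 * n + 3)).succ : ℕ)) *
      pf (2 * n + 2) ((Matrix.of fun (i j : Fin (2 * n + 4)) =>
        β (s + (i : ℕ)) (s + (j : ℕ))).submatrix
        (fun k => ((i.succ.succ : Fin (2 * n + 3)).succAbove k).succ)
        (fun k => ((i.succ.succ : Fin (2 * n + 3)).succAbove k).succ)) = 0 := by
    apply Finset.sum_eq_zero
    intro i _
    rw [hβ (s + 0) _ (by simp only [Fin.val_succ]; omega)]
    ring
  rw [hz, add_zero]
  have e : (Matrix.of fun (i j : Fin (2 * n + 4)) => β (s + (i : ℕ)) (s + (j : ℕ))).submatrix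
      (fun k => ((0 : Fin (2 * n + 3)).succAbove k).succ)
      (fun k => ((0 : Fin (2 * n + 3)).succAbove k).succ) =
      Matrix.of fun (i j : Fin (2 * n + 2)) => β (s + 2 + (i : ℕ)) (s + 2 + (j : ℕ)) := by
    ext i j
    simp only [Matrix.submatrix_apply, Matrix.of_apply, Fin.succAbove_zero, Fin.val_succ]
    congr 1 <;> omega
  set M := (Matrix.of fun (i j : Fin (2 * n + 4)) => β (s + (i : ℕ)) (s + (j : ℕ))).submatrix
      (fun k => (((0 : Fin (2 * n + 2)).succ : Fin (2 * n + 3)).succAbove k).succ)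
      (fun k => (((0 : Fin (2 * n + 2)).succ : Fin (2 * n + 3)).succAbove k).succ) with hM
  have hM0 : ∀ j : Fin (2 * n + 1), M 0 j.succ = β (s + 1) (s + 3 + (j : ℕ)) := by
    intro j
    rw [hM]
    simp only [Matrix.submatrix_apply, Matrix.of_apply, Fin.succ_succAbove_succ,
      Fin.succ_succAbove_zero, Fin.succAbove_zero, Fin.val_succ]
    congr 1
    omega
  have hMs : ∀ i j : Fin (2 * n), M i.succ.succ j.succ.succ = β (s + 4 + (i : ℕ)) (s + 4 + (j : ℕ)) := by
    intro i j
    rw [hM]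
    simp only [Matrix.submatrix_apply, Matrix.of_apply, Fin.succ_succAbove_succ,
      Fin.succAbove_zero, Fin.val_succ]
    congr 1 <;> omega
  have hpM : pf (2 * n + 2) M = β (s + 1) (s + 3) * W β n (s + 4) := by
    have h2 : pf (2 * n + 2) M = ∑ j : Fin (2 * n + 1), (-1) ^ (j : ℕ) * M 0 j.succ *
      pf (2 * n) (M.submatrix (fun k => (j.succAbove k).succ) (fun k => (j.succAbove k).succ)) := rfl
    rw [h2, Finset.sum_eq_single 0]
    · have e2 : M.submatrix (fun k => ((0 : Fin (2 * n + 1)).succAbove k).succ)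
          (fun k => ((0 : Fin (2 * n + 1)).succAbove k).succ) =
          Matrix.of fun (i j : Fin (2 * n)) => β (s + 4 + (i : ℕ)) (s + 4 + (j : ℕ)) := by
        ext i j
        simp only [Matrix.submatrix_apply, Matrix.of_apply, Fin.succAbove_zero]
        exact hMs i j
      rw [e2, hM0]
      simp [W]
    · intro j _ hj
      rw [hM0, hβ]
      · ring
      · have : (j : ℕ) ≠ 0 := fun h => hj (Fin.ext h)
        omega
    · intro h
      exact absurd (Finset.mem_univ _) h
  rw [e, hpM]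
  have e3 : pf (2 * n + 2) (Matrix.of fun (i j : Fin (2 * n + 2)) =>
      β (s + 2 + (i : ℕ)) (s + 2 + (j : ℕ))) = W β (n + 1) (s + 2) := rfl
  rw [e3]
  simp only [Fin.val_zero, Fin.val_succ, pow_zero, zero_add, pow_one, add_zero, one_mul]
  ring

/-- Continuants: the recursion from the other end. -/
theorem continuant (b c : ℕ → R) (V : ℕ → ℕ → R) (h0 : ∀ t, V t 0 = 1) (h1 : ∀ t, V t 1 = b t)
    (h2 : ∀ t n, V t (n + 2) = b t * V (t + 1) (n + 1) + c t * V (t + 2) n) :
    ∀ n t, V t (n + 2) = b (t + n + 1) * V t (n + 1) + c (t + n) * V t n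
  | 0, t => by
    rw [h2, h1, h0, h1, h0]
    simp only [Nat.add_zero]
    ring
  | 1, t => by
    rw [h2, h2, h1, h0, h1, h2 t 0, h1, h0]
    ring
  | (n + 2), t => by
    rw [h2 t (n + 2), continuant b c V h0 h1 h2 (n + 1) (t + 1),
      continuant b c V h0 h1 h2 n (t + 2), h2 t (n + 1), h2 t n]
    rw [show t + 1 + (n + 1) + 1 = t + (n + 2) + 1 by ring, show t + 2 + n + 1 = t + (n + 2) + 1 by ring,
      show t + 1 + (n + 1) = t + (n + 2) by ring, show t + 2 + n = t + (n + 2) by ring]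
    ring

end band

section gram

variable {K : Type*} [Field K] [CharZero K]

omit [CharZero K] in
theorem UU_deg (q a : K) : ∀ n, (UU q a n).natDegree ≤ n ∧ (UU q a n).coeff n = 1
  | 0 => by simp [UU]
  | 1 => by
    constructor
    · rw [UU]
      exact natDegree_X_sub_C_le _
    · rw [UU, coeff_sub, coeff_X_one, coeff_C_succ, sub_zero]
  | (n + 2) => by
    obtain ⟨h1, h2⟩ := UU_deg q a n
    obtain ⟨h3, h4⟩ := UU_deg q a (n + 1)
    have e1 : UU q a (n + 2) = X * UU q a (n + 1) - C ((1 + a) * q ^ (n + 1)) * UU q a (n + 1) +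
        C (a * q ^ n * (1 - q ^ (n + 1))) * UU q a n := by
      rw [UU]; ring
    constructor
    · rw [e1]
      refine natDegree_add_le_of_degree_le ((natDegree_sub_le _ _).trans (max_le ?_ ?_)) ?_
      · refine natDegree_mul_le.trans ?_
        rw [natDegree_X]
        omega
      · refine (natDegree_C_mul_le _ _).trans ?_
        omega
      · refine (natDegree_C_mul_le _ _).trans ?_
        omega
    · rw [e1, coeff_add, coeff_sub, coeff_C_mul, coeff_C_mul, show n + 2 = (n + 1) + 1 by ring,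
        coeff_X_mul, h4, coeff_eq_zero_of_natDegree_lt (by omega),
        coeff_eq_zero_of_natDegree_lt (by omega)]
      ring

/-- The change of basis. -/
noncomputable def PP (q a : K) (N : ℕ) : Matrix (Fin N) (Fin N) K :=
  Matrix.of fun m i => (UU q a (m : ℕ)).coeff (i : ℕ)

omit [CharZero K] in
theorem PP_det (q a : K) (N : ℕ) : (PP q a N).det = 1 := by
  rw [Matrix.det_of_isLowerTriangular]
  · apply Finset.prod_eq_one
    intro i _
    exact (UU_deg q a i).2
  · intro i j hij
    have hij' : (i : ℕ) < (j : ℕ) := hij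
    exact coeff_eq_zero_of_natDegree_lt (lt_of_le_of_lt (UU_deg q a i).1 hij')

omit [CharZero K] in
theorem gram (q a : K) (N : ℕ) (B : K[X] →ₗ[K] K[X] →ₗ[K] K) :
    PP q a N * (Matrix.of fun (i j : Fin N) => B (X ^ (i : ℕ)) (X ^ (j : ℕ))) * (PP q a N).transpose =
      Matrix.of fun (i j : Fin N) => B (UU q a i) (UU q a j) := by
  ext m n
  have hexp : ∀ m : Fin N, UU q a m = ∑ i : Fin N, (UU q a (m : ℕ)).coeff (i : ℕ) • (X : K[X]) ^ (i : ℕ) := by
    intro m
    conv_lhs => rw [as_sum_range' (UU q a m) N (lt_of_le_of_lt (UU_deg q a m).1 m.2)]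
    rw [Finset.sum_range]
    apply Finset.sum_congr rfl
    intro i _
    rw [← smul_X_eq_monomial]
  have h1 : B (UU q a m) (UU q a n) =
      ∑ i : Fin N, (UU q a (m : ℕ)).coeff (i : ℕ) * B (X ^ (i : ℕ)) (UU q a n) := by
    conv_lhs => rw [hexp m]
    rw [map_sum, LinearMap.sum_apply]
    apply Finset.sum_congr rfl
    intro i _
    rw [map_smul, LinearMap.smul_apply, smul_eq_mul]
  have h2 : ∀ f : K[X], B f (UU q a n) =
      ∑ j : Fin N, B f (X ^ (j : ℕ)) * (UU q a (n : ℕ)).coeff (j : ℕ) := by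
    intro f
    conv_lhs => rw [hexp n]
    rw [map_sum]
    apply Finset.sum_congr rfl
    intro i _
    rw [map_smul, smul_eq_mul, mul_comm]
  rw [Matrix.of_apply, h1, Matrix.mul_assoc, Matrix.mul_apply]
  apply Finset.sum_congr rfl
  intro i _
  rw [h2, Matrix.mul_apply]
  rfl

omit [CharZero K] in
theorem add_left (q : K) (f g h : K[X]) : (f + g) * DD q h - DD q (f + g) * h =
    (f * DD q h - DD q f * h) + (g * DD q h - DD q g * h) := by
  rw [map_add]; ring

omit [CharZero K] in
theorem add_right (q : K) (f g h : K[X]) : f * DD q (g + h) - DD q f * (g + h) =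
    (f * DD q g - DD q f * g) + (f * DD q h - DD q f * h) := by
  rw [map_add]; ring

omit [CharZero K] in
theorem smul_left (q : K) (c : K) (f g : K[X]) : (c • f) * DD q g - DD q (c • f) * g =
    c • (f * DD q g - DD q f * g) := by
  rw [map_smul, smul_sub, smul_mul_assoc, smul_mul_assoc]

omit [CharZero K] in
theorem smul_right (q : K) (c : K) (f g : K[X]) : f * DD q (c • g) - DD q f * (c • g) =
    c • (f * DD q g - DD q f * g) := by
  rw [map_smul, smul_sub, mul_smul_comm, mul_smul_comm]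

/-- `B0` as a bilinear map. -/
noncomputable def b0 (q a : K) : K[X] →ₗ[K] K[X] →ₗ[K] K :=
  LinearMap.mk₂ K (B0 q a)
    (by intro f g h; unfold B0; rw [add_left, map_add])
    (by intro c f g; unfold B0; rw [smul_left, map_smul])
    (by intro f g h; unfold B0; rw [add_right, map_add])
    (by intro c f g; unfold B0; rw [smul_right, map_smul])

/-- `B1` as a bilinear map. -/
noncomputable def b1 (q a : K) : K[X] →ₗ[K] K[X] →ₗ[K] K :=
  LinearMap.mk₂ K (B1 q a)
    (by intro f g h; unfold B1; rw [add_left, mul_add, map_add])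
    (by intro c f g; unfold B1; rw [smul_left, mul_smul_comm, map_smul])
    (by intro f g h; unfold B1; rw [add_right, mul_add, map_add])
    (by intro c f g; unfold B1; rw [smul_right, mul_smul_comm, map_smul])

omit [CharZero K] in
theorem b0_apply (q a : K) (f g : K[X]) : b0 q a f g = B0 q a f g := rfl

omit [CharZero K] in
theorem b1_apply (q a : K) (f g : K[X]) : b1 q a f g = B1 q a f g := rfl

theorem pf_b0 (q a : K) (n : ℕ) :
    pf (2 * n) (Matrix.of fun (i j : Fin (2 * n)) =>
      (q ^ (i : ℕ) - q ^ (j : ℕ)) * gg q a ((i : ℕ) + j - 1)) =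
      W (fun i j => B0 q a (UU q a i) (UU q a j)) n 0 := by
  have h := pf_gram (n := 2 * n) (Matrix.of fun (i j : Fin (2 * n)) =>
    (q ^ (i : ℕ) - q ^ (j : ℕ)) * gg q a ((i : ℕ) + j - 1))
    (by
      intro i j
      simp only [Matrix.of_apply]
      rw [Nat.add_comm (i : ℕ) (j : ℕ)]
      ring) (PP q a (2 * n))
  have h2 := gram q a (2 * n) (b0 q a)
  simp only [b0_apply, B0_mon] at h2
  rw [h2, PP_det, one_mul] at h
  rw [← h]
  unfold W
  simp only [Nat.zero_add]

theorem pf_b1 (q a : K) (n : ℕ) :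
    pf (2 * n) (Matrix.of fun (i j : Fin (2 * n)) =>
      (q ^ (i : ℕ) - q ^ (j : ℕ)) * gg q a ((i : ℕ) + j)) =
      W (fun i j => B1 q a (UU q a i) (UU q a j)) n 0 := by
  have h := pf_gram (n := 2 * n) (Matrix.of fun (i j : Fin (2 * n)) =>
    (q ^ (i : ℕ) - q ^ (j : ℕ)) * gg q a ((i : ℕ) + j))
    (by
      intro i j
      simp only [Matrix.of_apply]
      rw [Nat.add_comm (i : ℕ) (j : ℕ)]
      ring) (PP q a (2 * n))
  have h2 := gram q a (2 * n) (b1 q a)
  simp only [b1_apply, B1_mon] at h2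
  rw [h2, PP_det, one_mul] at h
  rw [← h]
  unfold W
  simp only [Nat.zero_add]

end gram

end Pool.Agent.K3h30.ASC
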