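import Pool.Agent.K3h30.ASC.Band

/-! # The two evaluations -/

namespace Pool.Agent.K3h30.ASC

open Pool.Agent.Helper929 Equiv Finset Polynomial

variable {K : Type*} [Field K]

/-- The normalising product. -/
def Pi' (q a : K) (n : ℕ) : K := ∏ k ∈ Finset.range n, ((1 - q ^ (2 * k + 1)) * hh q a (2 * k))

theorem hh_even (q a : K) : ∀ k, hh q a (2 * k) = a ^ (2 * k) * q ^ (k * (2 * k - 1)) * qp q (2 * k)
  | 0 => by simp [hh, qp]
  | (k + 1) => by
    have h1 : hh q a (2 * (k + 1)) = -(a * q ^ (2 * k + 1) * (1 - q ^ (2 * k + 2))) *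
        (-(a * q ^ (2 * k) * (1 - q ^ (2 * k + 1))) * hh q a (2 * k)) := rfl
    rw [h1, hh_even q a k, show 2 * (k + 1) = 2 * k + 1 + 1 by ring, qp_succ, qp_succ,
      show (k + 1) * (2 * k + 1 + 1 - 1) = k * (2 * k - 1) + 4 * k + 1 by
        rcases k with _ | k
        · rfl
        · rw [show 2 * (k + 1) + 1 + 1 - 1 = 2 * k + 3 by omega,
            show 2 * (k + 1) - 1 = 2 * k + 1 by omega]
          ring]
    ring

/-- The exponent. -/
def EE (n : ℕ) : ℕ := ∑ k ∈ Finset.range n, k * (2 * k - 1)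

theorem EE_six (n : ℕ) : 6 * (EE n : ℤ) = (n : ℤ) * (n - 1) * (4 * n - 5) := by
  induction n with
  | zero => simp [EE]
  | succ n ih =>
    have h : EE (n + 1) = EE n + n * (2 * n - 1) := by
      unfold EE; rw [Finset.sum_range_succ]
    have h2 : ((n * (2 * n - 1) : ℕ) : ℤ) = (n : ℤ) * (2 * n - 1) := by
      rcases n with _ | n
      · simp
      · rw [show 2 * (n + 1) - 1 = 2 * n + 1 by omega]
        push_cast
        ring
    rw [h]
    push_cast [h2]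
    push_cast at h2
    rw [mul_add, ih]
    ring

theorem Pi_eq (q a : K) (n : ℕ) : Pi' q a n =
    a ^ (n * (n - 1)) * q ^ EE n * ∏ k ∈ Finset.range n, qp q (2 * k + 1) := by
  induction n with
  | zero => simp [Pi', EE]
  | succ n ih =>
    have h1 : Pi' q a (n + 1) = Pi' q a n * ((1 - q ^ (2 * n + 1)) * hh q a (2 * n)) := by
      unfold Pi'; rw [Finset.prod_range_succ]
    have h2 : EE (n + 1) = EE n + n * (2 * n - 1) := by
      unfold EE; rw [Finset.sum_range_succ]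
    rw [h1, h2, ih, hh_even, Finset.prod_range_succ, qp_succ, Nat.add_sub_cancel,
      show (n + 1) * n = n * (n - 1) + 2 * n by
        rcases n with _ | n
        · rfl
        · rw [Nat.add_sub_cancel]; ring]
    ring

theorem B0_zero {q : K} (hq : ∀ i : ℕ, 0 < i → q ^ i ≠ 1) (a : K) (i j : ℕ) (h : i + 1 < j) :
    B0 q a (UU q a i) (UU q a j) = 0 := by
  rw [B0_UU hq, if_neg (by omega), if_neg (by omega)]
  ring

theorem B0_one {q : K} (hq : ∀ i : ℕ, 0 < i → q ^ i ≠ 1) (a : K) (m : ℕ) :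
    B0 q a (UU q a m) (UU q a (m + 1)) = (1 - q ^ (m + 1)) * hh q a m := by
  rw [B0_UU hq, if_pos (by omega), if_neg (by omega)]
  ring

theorem W_b0 {q : K} (hq : ∀ i : ℕ, 0 < i → q ^ i ≠ 1) (a : K) : ∀ n s,
    W (fun i j => B0 q a (UU q a i) (UU q a j)) n s =
      ∏ k ∈ Finset.range n, ((1 - q ^ (s + 2 * k + 1)) * hh q a (s + 2 * k))
  | 0, s => by rw [W_zero]; simp
  | (n + 1), s => by
    rw [W_tri _ (fun i j h => B0_zero hq a i j h), W_b0 hq a n (s + 2), B0_one hq,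
      Finset.prod_range_succ', mul_comm]
    congr 1
    apply Finset.prod_congr rfl
    intro k _
    rw [show s + 2 + 2 * k = s + 2 * (k + 1) by ring]

theorem B1_zero {q : K} (hq : ∀ i : ℕ, 0 < i → q ^ i ≠ 1) (a : K) (i j : ℕ) (h : i + 2 < j) :
    B1 q a (UU q a i) (UU q a j) = 0 := by
  rw [B1_UU, NN hq, NN hq, if_neg (by omega), if_neg (by omega), if_neg (by omega),
    if_neg (by omega), if_neg (by omega), if_neg (by omega)]
  ring

theorem B1_one {q : K} (hq : ∀ i : ℕ, 0 < i → q ^ i ≠ 1) (a : K) (m : ℕ) :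
    B1 q a (UU q a m) (UU q a (m + 1)) = (1 + a) * q ^ m * ((1 - q ^ (m + 1)) * hh q a m) := by
  rw [B1_UU, NN hq, NN hq, Nat.add_sub_cancel]
  rcases m with _ | m
  · simp [hh]
    ring
  · rw [if_neg (by omega), if_pos rfl, if_neg (by omega), if_neg (by omega), if_neg (by omega),
      if_neg (by omega)]
    ring

theorem B1_two {q : K} (hq : ∀ i : ℕ, 0 < i → q ^ i ≠ 1) (a : K) (m : ℕ) :
    B1 q a (UU q a m) (UU q a (m + 2)) = (1 - q ^ (m + 2)) * hh q a (m + 1) := by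
  rw [B1_UU, NN hq, NN hq, show m + 2 - 1 = m + 1 by omega]
  rw [if_pos rfl, if_neg (by omega), if_neg (by omega), if_neg (by omega), if_neg (by omega),
      if_neg (by omega)]
  ring

/-- The normalised value of the second Pfaffian. -/
def RR (q a : K) (n : ℕ) : K := q ^ (n * (n - 1)) * gg ((q ^ 2)⁻¹) a n

theorem inv_ne {q : K} (hq : ∀ i : ℕ, 0 < i → q ^ i ≠ 1) (i : ℕ) (hi : 0 < i) :
    ((q ^ 2)⁻¹) ^ i ≠ 1 := by
  intro h
  rw [inv_pow, inv_eq_one, ← pow_mul] at h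
  exact hq (2 * i) (by omega) h

theorem RR_rec {q : K} (hq0 : q ≠ 0) (hq : ∀ i : ℕ, 0 < i → q ^ i ≠ 1) (a : K) (n : ℕ) :
    RR q a (n + 2) = (1 + a) * q ^ (2 * n + 2) * RR q a (n + 1) +
      a * q ^ (2 * n) * (1 - q ^ (2 * n + 2)) * RR q a n := by
  unfold RR
  rw [gg_rec (inv_ne hq)]
  have e1 : q ^ ((n + 2) * (n + 2 - 1)) = q ^ (2 * n + 2) * q ^ ((n + 1) * (n + 1 - 1)) := by
    rw [← pow_add]
    congr 1
    rw [show n + 2 - 1 = n + 1 by omega, Nat.add_sub_cancel]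
    ring
  have e2 : q ^ ((n + 2) * (n + 2 - 1)) = q ^ (2 * n) * q ^ (2 * n + 2) * q ^ (n * (n - 1)) := by
    rw [← pow_add, ← pow_add]
    congr 1
    rcases n with _ | n
    · rfl
    · rw [show n + 1 + 2 - 1 = n + 2 by omega, Nat.add_sub_cancel]
      ring
  have e3 : q ^ (2 * n + 2) * ((q ^ 2)⁻¹) ^ (n + 1) = 1 := by
    rw [show 2 * n + 2 = 2 * (n + 1) by ring, pow_mul, ← mul_pow, mul_inv_cancel₀ (pow_ne_zero 2 hq0),
      one_pow]
  have e4 : q ^ ((n + 2) * (n + 2 - 1)) * (a * (1 - ((q ^ 2)⁻¹) ^ (n + 1)) * gg ((q ^ 2)⁻¹) a n)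
      = -(a * q ^ (2 * n) * (1 - q ^ (2 * n + 2)) * (q ^ (n * (n - 1)) * gg ((q ^ 2)⁻¹) a n)) := by
    rw [e2]
    linear_combination (-(a * gg ((q ^ 2)⁻¹) a n * q ^ (2 * n) * q ^ (n * (n - 1)))) * e3
  rw [mul_sub, e4, e1]
  ring

theorem W_b1 {q : K} (hq0 : q ≠ 0) (hq : ∀ i : ℕ, 0 < i → q ^ i ≠ 1) (a : K) : ∀ n,
    W (fun i j => B1 q a (UU q a i) (UU q a j)) n 0 = RR q a n * Pi' q a n := by
  have hc := continuant
    (fun t => B1 q a (UU q a (2 * t)) (UU q a (2 * t + 1)))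
    (fun t => -(B1 q a (UU q a (2 * t)) (UU q a (2 * t + 2)) *
      B1 q a (UU q a (2 * t + 1)) (UU q a (2 * t + 3))))
    (fun t n => W (fun i j => B1 q a (UU q a i) (UU q a j)) n (2 * t))
    (fun t => rfl) (fun t => W_one _ _)
    (fun t n => by
      rw [W_penta _ (fun i j h => B1_zero hq a i j h), show 2 * (t + 1) = 2 * t + 2 by ring,
        show 2 * (t + 2) = 2 * t + 4 by ring]
      ring)
  have hP : ∀ n, Pi' q a (n + 1) = Pi' q a n * ((1 - q ^ (2 * n + 1)) * hh q a (2 * n)) := by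
    intro n
    unfold Pi'; rw [Finset.prod_range_succ]
  intro n
  induction n using Nat.twoStepInduction with
  | zero =>
    rw [W_zero]
    simp [RR, Pi', gg_zero (inv_ne hq)]
  | one =>
    rw [W_one, B1_one hq, hP]
    simp [RR, Pi', gg_one (inv_ne hq)]
  | more n ih0 ih1 =>
    have h := hc n 0
    simp only [Nat.mul_zero, Nat.zero_add] at h
    rw [h, ih0, ih1, RR_rec hq0 hq, B1_one hq, B1_two hq, show 2 * n + 3 = (2 * n + 1) + 2 by ring,
      B1_two hq, hP (n + 1), hP n]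
    have h5 : hh q a (2 * n + 1) = -(a * q ^ (2 * n) * (1 - q ^ (2 * n + 1))) * hh q a (2 * n) := rfl
    rw [h5, show 2 * (n + 1) = 2 * n + 2 by ring, show 2 * n + 1 + 1 = 2 * n + 2 by ring,
      show 2 * n + 1 + 2 = 2 * n + 3 by ring, show 2 * n + 2 + 1 = 2 * n + 3 by ring]
    ring

/-- The exponent of the inversion. -/
def TT (m : ℕ) : ℕ := ∑ i ∈ Finset.range m, (i + 1)

theorem TT_add (k l : ℕ) : TT (k + l) = TT k + TT l + k * l := by
  induction l with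
  | zero => simp [TT]
  | succ l ih =>
    have h1 : ∀ m, TT (m + 1) = TT m + (m + 1) := by
      intro m; unfold TT; rw [Finset.sum_range_succ]
    rw [show k + (l + 1) = (k + l) + 1 by ring, h1, h1, ih]
    ring

theorem qp_inv {p : K} (hp0 : p ≠ 0) (m : ℕ) : p ^ TT m * qp p⁻¹ m = (-1) ^ m * qp p m := by
  induction m with
  | zero => simp [TT, qp]
  | succ m ih =>
    have h1 : TT (m + 1) = TT m + (m + 1) := by
      unfold TT; rw [Finset.sum_range_succ]
    have h2 : p ^ (m + 1) * (p⁻¹) ^ (m + 1) = 1 := by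
      rw [← mul_pow, mul_inv_cancel₀ hp0, one_pow]
    rw [h1, qp_succ, qp_succ, pow_add, pow_succ (-1 : K) m]
    have h3 : p ^ TT m * p ^ (m + 1) * ((1 - (p⁻¹) ^ (m + 1)) * qp p⁻¹ m) =
        (p ^ (m + 1) - p ^ (m + 1) * (p⁻¹) ^ (m + 1)) * (p ^ TT m * qp p⁻¹ m) := by ring
    rw [h3, h2, ih]
    ring

theorem gb_inv {p : K} (hp0 : p ≠ 0) (hp : ∀ i : ℕ, 0 < i → p ^ i ≠ 1) (n k : ℕ) (hk : k ≤ n) :
    p ^ (k * (n - k)) * gb p⁻¹ n k = gb p n k := by
  obtain ⟨l, rfl⟩ := Nat.exists_eq_add_of_le hk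
  have hp' : ∀ i : ℕ, 0 < i → p⁻¹ ^ i ≠ 1 := by
    intro i hi h
    rw [inv_pow, inv_eq_one] at h
    exact hp i hi h
  rw [Nat.add_sub_cancel_left]
  unfold gb
  rw [Nat.add_sub_cancel_left]
  have n1 := qp_ne hp k
  have n2 := qp_ne hp l
  have n3 := qp_ne hp' k
  have n4 := qp_ne hp' l
  have q1 := qp_inv hp0 (k + l)
  have q2 := qp_inv hp0 k
  have q3 := qp_inv hp0 l
  rw [TT_add, pow_add, pow_add] at q1
  rw [← mul_div_assoc, div_eq_div_iff (mul_ne_zero n3 n4) (mul_ne_zero n1 n2)]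
  have hne : (p ^ TT k * p ^ TT l) * ((-1) ^ k * (-1) ^ l) ≠ 0 := by
    refine mul_ne_zero (mul_ne_zero (pow_ne_zero _ hp0) (pow_ne_zero _ hp0)) ?_
    exact mul_ne_zero (pow_ne_zero _ (by norm_num)) (pow_ne_zero _ (by norm_num))
  apply mul_left_cancel₀ hne
  calc (p ^ TT k * p ^ TT l) * ((-1) ^ k * (-1) ^ l) * (p ^ (k * l) * qp p⁻¹ (k + l) * (qp p k * qp p l))
      = (p ^ TT k * p ^ TT l * p ^ (k * l) * qp p⁻¹ (k + l)) * (((-1) ^ k * qp p k) * ((-1) ^ l * qp p l)) := by ring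
    _ = ((-1) ^ (k + l) * qp p (k + l)) * ((p ^ TT k * qp p⁻¹ k) * (p ^ TT l * qp p⁻¹ l)) := by
        rw [q1, q2, q3]
    _ = _ := by rw [pow_add]; ring

end Pool.Agent.K3h30.ASC
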