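import Pool.Agent.Helper929.Pfaffian

/-! # The Pfaffian as a sum over permutations -/

namespace Pool.Agent.K3h30.ASC

open Pool.Agent.Helper929 Equiv Finset

variable {R : Type*} [CommRing R]

/-- The position `2k`. -/
def pa {n : ℕ} (k : Fin n) : Fin (2 * n) := ⟨2 * (k : ℕ), by omega⟩

/-- The position `2k + 1`. -/
def pb {n : ℕ} (k : Fin n) : Fin (2 * n) := ⟨2 * (k : ℕ) + 1, by omega⟩

/-- The unnormalised permutation sum. -/
def psum (n : ℕ) (A : Matrix (Fin (2 * n)) (Fin (2 * n)) R) : R :=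
  ∑ σ : Perm (Fin (2 * n)), ((Perm.sign σ : ℤ) : R) * ∏ k : Fin n, A (σ (pa k)) (σ (pb k))

/-- The summand. -/
def term {n : ℕ} (A : Matrix (Fin (2 * n)) (Fin (2 * n)) R) (σ : Perm (Fin (2 * n))) : R :=
  ((Perm.sign σ : ℤ) : R) * ∏ k : Fin n, A (σ (pa k)) (σ (pb k))

/-- Lifting a permutation of the pairs. -/
def liftF {n : ℕ} (f : Fin n → Fin n) (i : Fin (2 * n)) : Fin (2 * n) :=
  if (i : ℕ) % 2 = 0 then pa (f ⟨(i : ℕ) / 2, by omega⟩) else pb (f ⟨(i : ℕ) / 2, by omega⟩)

theorem liftF_pa {n : ℕ} (f : Fin n → Fin n) (k : Fin n) : liftF f (pa k) = pa (f k) := by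
  unfold liftF pa
  have h : 2 * (k : ℕ) % 2 = 0 := by omega
  have h2 : 2 * (k : ℕ) / 2 = k := by omega
  simp [h2]

theorem liftF_pb {n : ℕ} (f : Fin n → Fin n) (k : Fin n) : liftF f (pb k) = pb (f k) := by
  unfold liftF pb
  have h : ¬ (2 * (k : ℕ) + 1) % 2 = 0 := by omega
  have h2 : (2 * (k : ℕ) + 1) / 2 = k := by omega
  simp [h2]

theorem pos_cases {n : ℕ} (i : Fin (2 * n)) : ∃ k : Fin n, i = pa k ∨ i = pb k := by
  refine ⟨⟨(i : ℕ) / 2, by omega⟩, ?_⟩
  rcases Nat.mod_two_eq_zero_or_one (i : ℕ) with h | h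
  · left; apply Fin.ext; simp [pa]; omega
  · right; apply Fin.ext; simp [pb]; omega

theorem liftF_comp {n : ℕ} (f g : Fin n → Fin n) (i : Fin (2 * n)) :
    liftF f (liftF g i) = liftF (fun k => f (g k)) i := by
  obtain ⟨k, h | h⟩ := pos_cases i
  · rw [h, liftF_pa, liftF_pa, liftF_pa]
  · rw [h, liftF_pb, liftF_pb, liftF_pb]

theorem liftF_id {n : ℕ} (i : Fin (2 * n)) : liftF (fun k : Fin n => k) i = i := by
  obtain ⟨k, h | h⟩ := pos_cases i
  · rw [h, liftF_pa]
  · rw [h, liftF_pb]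

/-- The swap of two pairs. -/
def sw {n : ℕ} (u v : Fin n) : Perm (Fin (2 * n)) where
  toFun := liftF (Equiv.swap u v)
  invFun := liftF (Equiv.swap u v)
  left_inv := by
    intro i
    rw [liftF_comp]
    simp only [Equiv.swap_apply_self]
    exact liftF_id i
  right_inv := by
    intro i
    rw [liftF_comp]
    simp only [Equiv.swap_apply_self]
    exact liftF_id i

theorem sw_pa {n : ℕ} (u v k : Fin n) : sw u v (pa k) = pa (Equiv.swap u v k) := liftF_pa _ _

theorem sw_pb {n : ℕ} (u v k : Fin n) : sw u v (pb k) = pb (Equiv.swap u v k) := liftF_pb _ _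

theorem pa_inj {n : ℕ} {k l : Fin n} (h : pa k = pa l) : k = l := by
  have := congrArg Fin.val h
  simp [pa] at this
  exact Fin.ext this

theorem pb_inj {n : ℕ} {k l : Fin n} (h : pb k = pb l) : k = l := by
  have := congrArg Fin.val h
  simp [pb] at this
  exact Fin.ext this

theorem pa_ne_pb {n : ℕ} (k l : Fin n) : pa k ≠ pb l := by
  intro h
  have := congrArg Fin.val h
  simp [pa, pb] at this
  omega

theorem sw_eq {n : ℕ} (u v : Fin n) :
    sw u v = Equiv.swap (pa u) (pa v) * Equiv.swap (pb u) (pb v) := by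
  ext i : 1
  rw [Perm.mul_apply]
  obtain ⟨k, h | h⟩ := pos_cases i
  · rw [h, sw_pa, Equiv.swap_apply_of_ne_of_ne (pa_ne_pb _ _) (pa_ne_pb _ _)]
    by_cases h1 : k = u
    · rw [h1, Equiv.swap_apply_left, Equiv.swap_apply_left]
    · by_cases h2 : k = v
      · rw [h2, Equiv.swap_apply_right, Equiv.swap_apply_right]
      · rw [Equiv.swap_apply_of_ne_of_ne h1 h2, Equiv.swap_apply_of_ne_of_ne]
        · exact fun h => h1 (pa_inj h)
        · exact fun h => h2 (pa_inj h)
  · rw [h, sw_pb]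
    by_cases h1 : k = u
    · rw [h1, Equiv.swap_apply_left, Equiv.swap_apply_left,
        Equiv.swap_apply_of_ne_of_ne (pa_ne_pb _ _).symm (pa_ne_pb _ _).symm]
    · by_cases h2 : k = v
      · rw [h2, Equiv.swap_apply_right, Equiv.swap_apply_right,
          Equiv.swap_apply_of_ne_of_ne (pa_ne_pb _ _).symm (pa_ne_pb _ _).symm]
      · rw [Equiv.swap_apply_of_ne_of_ne h1 h2, Equiv.swap_apply_of_ne_of_ne (fun h => h1 (pb_inj h))
          (fun h => h2 (pb_inj h)),
          Equiv.swap_apply_of_ne_of_ne (pa_ne_pb _ _).symm (pa_ne_pb _ _).symm]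

theorem sign_sw {n : ℕ} (u v : Fin n) : Perm.sign (sw u v) = 1 := by
  rw [sw_eq, Perm.sign_mul]
  by_cases h : u = v
  · subst h; simp
  · rw [Perm.sign_swap (fun h' => h (pa_inj h')), Perm.sign_swap (fun h' => h (pb_inj h'))]
    decide

theorem term_sw {n : ℕ} (A : Matrix (Fin (2 * n)) (Fin (2 * n)) R) (σ : Perm (Fin (2 * n)))
    (u v : Fin n) : term A (σ * sw u v) = term A σ := by
  unfold term
  rw [Perm.sign_mul, sign_sw, mul_one]
  congr 1
  simp only [Perm.mul_apply, sw_pa, sw_pb]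
  exact Equiv.prod_comp (Equiv.swap u v) (fun k => A (σ (pa k)) (σ (pb k)))

theorem term_e {n : ℕ} (A : Matrix (Fin (2 * n)) (Fin (2 * n)) R) (hA : ∀ i j, A i j = - A j i)
    (σ : Perm (Fin (2 * n))) (u : Fin n) :
    term A (σ * Equiv.swap (pa u) (pb u)) = term A σ := by
  unfold term
  rw [Perm.sign_mul, Perm.sign_swap (pa_ne_pb u u)]
  rw [← Finset.mul_prod_erase Finset.univ
    (fun k => A ((σ * Equiv.swap (pa u) (pb u)) (pa k)) ((σ * Equiv.swap (pa u) (pb u)) (pb k)))
    (Finset.mem_univ u),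
    ← Finset.mul_prod_erase Finset.univ (fun k => A (σ (pa k)) (σ (pb k))) (Finset.mem_univ u)]
  have h1 : ∏ k ∈ Finset.univ.erase u, A ((σ * Equiv.swap (pa u) (pb u)) (pa k))
      ((σ * Equiv.swap (pa u) (pb u)) (pb k)) = ∏ k ∈ Finset.univ.erase u, A (σ (pa k)) (σ (pb k)) := by
    apply Finset.prod_congr rfl
    intro k hk
    have hk' := Finset.ne_of_mem_erase hk
    rw [Perm.mul_apply, Perm.mul_apply, Equiv.swap_apply_of_ne_of_ne (fun h => hk' (pa_inj h))
      (pa_ne_pb _ _), Equiv.swap_apply_of_ne_of_ne (pa_ne_pb _ _).symm (fun h => hk' (pb_inj h))]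
  rw [h1]
  simp only [Perm.mul_apply, Equiv.swap_apply_left, Equiv.swap_apply_right]
  rw [hA (σ (pb u)) (σ (pa u))]
  push_cast
  ring

theorem psum_term {n : ℕ} (A : Matrix (Fin (2 * n)) (Fin (2 * n)) R) :
    psum n A = ∑ σ : Perm (Fin (2 * n)), term A σ := rfl

/-- The number of terms with `σ p = 0` does not depend on `p`. -/
theorem psum_eq {n : ℕ} (A : Matrix (Fin (2 * (n + 1))) (Fin (2 * (n + 1))) R)
    (hA : ∀ i j, A i j = - A j i) :
    psum (n + 1) A = (2 * (n + 1) : R) *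
      ∑ σ : Perm (Fin (2 * (n + 1))), if σ (pa 0) = pa 0 then term A σ else 0 := by
  have key : ∀ p : Fin (2 * (n + 1)),
      (∑ σ : Perm (Fin (2 * (n + 1))), if σ p = pa 0 then term A σ else 0) =
      ∑ σ : Perm (Fin (2 * (n + 1))), if σ (pa 0) = pa 0 then term A σ else 0 := by
    have ha : ∀ k : Fin (n + 1),
        (∑ σ : Perm (Fin (2 * (n + 1))), if σ (pa k) = pa 0 then term A σ else 0) =
        ∑ σ : Perm (Fin (2 * (n + 1))), if σ (pa 0) = pa 0 then term A σ else 0 := by
      intro k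
      rw [← Equiv.sum_comp (Equiv.mulRight (sw 0 k))]
      apply Finset.sum_congr rfl
      intro σ _
      simp only [Equiv.coe_mulRight, term_sw, Perm.mul_apply, sw_pa, Equiv.swap_apply_right]
    intro p
    obtain ⟨k, h | h⟩ := pos_cases p
    · rw [h, ha]
    · rw [h, ← ha k, ← Equiv.sum_comp (Equiv.mulRight (Equiv.swap (pa k) (pb k)))]
      apply Finset.sum_congr rfl
      intro σ _
      simp only [Equiv.coe_mulRight, term_e A hA, Perm.mul_apply, Equiv.swap_apply_right]
  have h1 : psum (n + 1) A = ∑ p : Fin (2 * (n + 1)),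
      ∑ σ : Perm (Fin (2 * (n + 1))), if σ p = pa 0 then term A σ else 0 := by
    rw [psum_term, Finset.sum_comm]
    apply Finset.sum_congr rfl
    intro σ _
    rw [Finset.sum_eq_single (σ.symm (pa 0))]
    · simp
    · intro p _ hp
      rw [if_neg]
      intro h
      exact hp (by rw [← h]; simp)
    · intro h
      exact absurd (Finset.mem_univ _) h
  rw [h1, Finset.sum_congr rfl (fun p _ => key p), Finset.sum_const, Finset.card_univ,
    Fintype.card_fin, nsmul_eq_mul]
  push_cast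
  ring

/-- The parametrisation of the permutations by the image of `0`. -/
def phi {m : ℕ} (x : Fin (m + 1) × Perm (Fin m)) : Perm (Fin (m + 1)) :=
  x.1.cycleRange.symm * Perm.decomposeFin.symm (0, x.2)

theorem phi_zero {m : ℕ} (x : Fin (m + 1) × Perm (Fin m)) : phi x 0 = x.1 := by
  unfold phi
  rw [Perm.mul_apply, Perm.decomposeFin_symm_apply_zero]
  exact Fin.cycleRange_symm_zero x.1

theorem phi_succ {m : ℕ} (x : Fin (m + 1) × Perm (Fin m)) (k : Fin m) :
    phi x k.succ = x.1.succAbove (x.2 k) := by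
  unfold phi
  rw [Perm.mul_apply, Perm.decomposeFin_symm_apply_succ, Equiv.swap_self, Equiv.refl_apply]
  exact Fin.cycleRange_symm_succ x.1 (x.2 k)

theorem phi_bij (m : ℕ) : Function.Bijective (phi (m := m)) := by
  rw [Fintype.bijective_iff_injective_and_card]
  constructor
  · rintro ⟨j, ρ⟩ ⟨j', ρ'⟩ h
    have h0 : j = j' := by
      have := congrArg (fun e => e 0) h
      simp only [phi_zero] at this
      exact this
    subst h0
    have h1 := mul_left_cancel h
    have h2 := Perm.decomposeFin.symm.injective h1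
    exact Prod.ext rfl (Prod.ext_iff.mp h2).2
  · rw [Fintype.card_prod, Fintype.card_fin, Fintype.card_perm, Fintype.card_perm,
      Fintype.card_fin, Fintype.card_fin, Nat.factorial_succ]

theorem phi_sign {m : ℕ} (x : Fin (m + 1) × Perm (Fin m)) :
    Perm.sign (phi x) = (-1) ^ (x.1 : ℕ) * Perm.sign x.2 := by
  unfold phi
  rw [Perm.sign_mul, Perm.decomposeFin.symm_sign, if_pos rfl, one_mul]
  congr 1
  change Perm.sign (x.1.cycleRange)⁻¹ = _
  rw [Perm.sign_inv, Fin.sign_cycleRange]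

theorem term_expand {n : ℕ} (A : Matrix (Fin (2 * (n + 1))) (Fin (2 * (n + 1))) R)
    (x : Fin (2 * n + 1) × Perm (Fin (2 * n))) :
    term A (Perm.decomposeFin.symm ((0 : Fin (2 * n + 1 + 1)), phi x)) =
      (-1) ^ (x.1 : ℕ) * A 0 x.1.succ *
        term (n := n) (A.submatrix (fun k => (x.1.succAbove k).succ)
          (fun k => (x.1.succAbove k).succ)) x.2 := by
  have h0 : ∀ k, (Perm.decomposeFin.symm ((0 : Fin (2 * n + 1 + 1)), phi x)) k.succ = (phi x k).succ := by
    intro k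
    rw [Perm.decomposeFin_symm_apply_succ, Equiv.swap_self, Equiv.refl_apply]
  unfold term
  rw [Fin.prod_univ_succ]
  have e1 : (pa (0 : Fin (n + 1))) = (0 : Fin (2 * n + 1 + 1)) := rfl
  have e2 : (pb (0 : Fin (n + 1))) = (Fin.succ 0 : Fin (2 * n + 1 + 1)) := rfl
  have e3 : ∀ k : Fin n, pa k.succ = (Fin.succ (Fin.succ (pa k)) : Fin (2 * n + 1 + 1)) :=
    fun k => rfl
  have e4 : ∀ k : Fin n, pb k.succ = (Fin.succ (Fin.succ (pb k)) : Fin (2 * n + 1 + 1)) :=
    fun k => rfl
  have hs : Perm.sign (Perm.decomposeFin.symm ((0 : Fin (2 * n + 1 + 1)), phi x)) =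
      (-1) ^ (x.1 : ℕ) * Perm.sign x.2 := by
    rw [Perm.decomposeFin.symm_sign, if_pos rfl, one_mul, phi_sign]
  erw [hs]
  rw [e1, e2]
  erw [Perm.decomposeFin_symm_apply_zero, h0]
  rw [phi_zero]
  have h5 : ∀ k : Fin n,
      A ((Perm.decomposeFin.symm ((0 : Fin (2 * n + 1 + 1)), phi x)) (pa k.succ))
        ((Perm.decomposeFin.symm ((0 : Fin (2 * n + 1 + 1)), phi x)) (pb k.succ)) =
      (A.submatrix (fun k => (x.1.succAbove k).succ) (fun k => (x.1.succAbove k).succ))
        (x.2 (pa k)) (x.2 (pb k)) := by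
    intro k
    rw [e3, e4]
    erw [h0, h0]
    rw [phi_succ, phi_succ]
    rfl
  rw [Finset.prod_congr rfl (fun k _ => h5 k)]
  push_cast
  ring

theorem psum_succ {n : ℕ} (A : Matrix (Fin (2 * (n + 1))) (Fin (2 * (n + 1))) R)
    (hA : ∀ i j, A i j = - A j i) :
    psum (n + 1) A = (2 * (n + 1) : R) * ∑ j : Fin (2 * n + 1), (-1) ^ (j : ℕ) * A 0 j.succ *
      psum n (A.submatrix (fun k => (j.succAbove k).succ) (fun k => (j.succAbove k).succ)) := by
  rw [psum_eq A hA]
  congr 1
  have h1 : (∑ σ : Perm (Fin (2 * (n + 1))), if σ (pa 0) = pa 0 then term A σ else 0) =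
      ∑ e : Perm (Fin (2 * n + 1)),
        term A (Perm.decomposeFin.symm ((0 : Fin (2 * n + 1 + 1)), e)) := by
    have h2 := Equiv.sum_comp (Perm.decomposeFin (n := 2 * n + 1)).symm
      (fun σ : Perm (Fin (2 * n + 1 + 1)) =>
        if σ 0 = 0 then term (n := n + 1) A σ else 0)
    refine h2.symm.trans ?_
    rw [Fintype.sum_prod_type]
    rw [Finset.sum_eq_single (0 : Fin (2 * n + 1 + 1))]
    · apply Finset.sum_congr rfl
      intro e _
      rw [if_pos]
      exact Perm.decomposeFin_symm_apply_zero _ _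
    · intro p _ hp
      apply Finset.sum_eq_zero
      intro e _
      rw [if_neg]
      intro h
      apply hp
      have := Perm.decomposeFin_symm_apply_zero p e
      rw [← this]
      exact h
    · intro h
      exact absurd (Finset.mem_univ _) h
  rw [h1]
  rw [← (phi_bij (2 * n)).sum_comp
    (fun e => term A (Perm.decomposeFin.symm ((0 : Fin (2 * n + 1 + 1)), e)))]
  rw [Fintype.sum_prod_type]
  apply Finset.sum_congr rfl
  intro j _
  rw [psum_term, Finset.mul_sum]
  apply Finset.sum_congr rfl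
  intro ρ _
  exact term_expand A (j, ρ)

/-- The permutation sum is `2 ^ n * n!` times the Pfaffian. -/
theorem psum_pf : ∀ (n : ℕ) (A : Matrix (Fin (2 * n)) (Fin (2 * n)) R),
    (∀ i j, A i j = - A j i) → psum n A = (2 ^ n * (n.factorial : R)) * pf (2 * n) A
  | 0, A, hA => by
    simp [psum, pf]
  | (n + 1), A, hA => by
    rw [psum_succ A hA]
    have h : pf (2 * (n + 1)) A = ∑ j : Fin (2 * n + 1), (-1) ^ (j : ℕ) * A 0 j.succ *
      pf (2 * n) (A.submatrix (fun k => (j.succAbove k).succ) (fun k => (j.succAbove k).succ)) := rfl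
    rw [h, Finset.mul_sum, Finset.mul_sum]
    apply Finset.sum_congr rfl
    intro j _
    have h2 := psum_pf n (A.submatrix (fun k => (j.succAbove k).succ)
      (fun k => (j.succAbove k).succ)) (fun i k => hA _ _)
    rw [h2, Nat.factorial_succ]
    push_cast
    ring

end Pool.Agent.K3h30.ASC
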